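import Mathlib
import Pool.Agent.H500R2.EO.Defs
import Pool.Agent.H500R2.EO.Infinite
import Pool.Agent.H500R2.EO.Lower

/-!
# The maximal exact order of an additive basis of order `r` is `r ^ 2 / 3 + O(r)`

Erdos-Graham (1980), Erdos problem 336.
-/

open Filter

namespace Pool.Agent.Results.MP_137890_nt.ExactOrderLimit

open Pool.Agent.H500R2.EO

theorem one_mem (r : ℕ) (hr : 1 ≤ r) : 1 ∈ exactOrders r := by
  have h1 : ∀ n : ℕ, n ∈ nsum Set.univ 1 := fun n => ⟨fun _ => n, fun _ => trivial, by simp⟩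
  refine ⟨Set.univ, ⟨0, fun n _ => ⟨1, hr, h1 n⟩⟩, ⟨0, fun n _ => h1 n⟩, ?_⟩
  rintro k ⟨N, hN⟩
  by_contra hcon
  have hk : k = 0 := by omega
  subst hk
  obtain ⟨v, _, hv⟩ := hN (N + 1) (by omega)
  simp at hv

theorem lower_all (r : ℕ) (hr : 2 ≤ r) (hh : ∀ k ∈ exactOrders r, k ≤ h r) :
    (r : ℝ) ^ 2 / 3 - 2 * r ≤ h r := by
  rcases lt_or_ge r 5 with h5 | h5
  · have h1 : (0 : ℝ) ≤ h r := Nat.cast_nonneg _
    have h2 : (r : ℝ) ≤ 5 := by exact_mod_cast h5.le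
    have h3 : (0 : ℝ) ≤ r := Nat.cast_nonneg _
    nlinarith
  · obtain ⟨q, hq⟩ : ∃ q, q = (r + 1) / 3 := ⟨_, rfl⟩
    have hq2 : 2 ≤ q := by omega
    have hq3 : 3 * q - 1 ≤ r := by omega
    have hq4 : r ≤ 3 * q + 1 := by omega
    have h1 := hh _ (lower q r hq2 hq3)
    have h2 : 3 * q ^ 2 + q ≤ h r + 1 := by omega
    have h3 : 3 * (q : ℝ) ^ 2 + q ≤ h r + 1 := by exact_mod_cast h2
    have h4 : (r : ℝ) ≤ 3 * q + 1 := by exact_mod_cast hq4
    have h5' : (5 : ℝ) ≤ r := by exact_mod_cast h5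
    have h6 : (2 : ℝ) ≤ q := by exact_mod_cast hq2
    nlinarith

/-- For every `r ≥ 2` the maximum `h r` of the exact orders of additive bases of order `r`
exists, `h r = r ^ 2 / 3 + O(r)`, and hence `h r / r ^ 2` tends to `1 / 3`. -/
theorem result :
    (∃ C : ℝ, ∀ r : ℕ, 2 ≤ r →
      IsGreatest (exactOrders r) (h r) ∧ |(h r : ℝ) - (r : ℝ) ^ 2 / 3| ≤ C * r) ∧
    Tendsto (fun r : ℕ => (h r : ℝ) / (r : ℝ) ^ 2) atTop (nhds (1 / 3)) := by
  obtain ⟨C, hC⟩ := infinite_main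
  have key : ∀ r : ℕ, 2 ≤ r →
      IsGreatest (exactOrders r) (h r) ∧
        |(h r : ℝ) - (r : ℝ) ^ 2 / 3| ≤ ((C : ℝ) / 3 + 2) * r := by
    intro r hr
    have hbdd : BddAbove (exactOrders r) := by
      refine ⟨r ^ 2 + C * r, ?_⟩
      intro k hk
      have := hC r (by omega) k hk
      omega
    have hne : (exactOrders r).Nonempty := ⟨1, one_mem r (by omega)⟩
    have hmem : h r ∈ exactOrders r := Nat.sSup_mem hne hbdd
    have hle : ∀ k ∈ exactOrders r, k ≤ h r := fun k hk => le_csSup hbdd hk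
    refine ⟨⟨hmem, hle⟩, ?_⟩
    have h1 := hC r (by omega) _ hmem
    have h2 : 3 * (h r : ℝ) ≤ (r : ℝ) ^ 2 + C * r := by exact_mod_cast h1
    have h3 := lower_all r hr hle
    have h4 : (0 : ℝ) ≤ r := Nat.cast_nonneg _
    have h5 : (0 : ℝ) ≤ C := Nat.cast_nonneg _
    rw [abs_le]
    constructor
    · nlinarith [mul_nonneg h5 h4]
    · nlinarith
  refine ⟨⟨_, key⟩, ?_⟩
  rw [tendsto_iff_norm_sub_tendsto_zero]
  have hlim : Tendsto (fun r : ℕ => ((C : ℝ) / 3 + 2) * (1 / (r : ℝ))) atTop (nhds 0) := by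
    have := (tendsto_one_div_atTop_nhds_zero_nat (𝕜 := ℝ)).const_mul ((C : ℝ) / 3 + 2)
    simpa using this
  refine squeeze_zero' (Eventually.of_forall fun r => norm_nonneg _) ?_ hlim
  filter_upwards [eventually_ge_atTop 2] with r hr
  have h1 := (key r hr).2
  have h2 : (0 : ℝ) < r := by
    have : 0 < r := by omega
    exact_mod_cast this
  rw [Real.norm_eq_abs]
  have h3 : (h r : ℝ) / (r : ℝ) ^ 2 - 1 / 3 = ((h r : ℝ) - (r : ℝ) ^ 2 / 3) / (r : ℝ) ^ 2 := by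
    field_simp
  rw [h3, abs_div, abs_of_pos (by positivity : (0 : ℝ) < (r : ℝ) ^ 2),
    div_le_iff₀ (by positivity)]
  calc |(h r : ℝ) - (r : ℝ) ^ 2 / 3| ≤ ((C : ℝ) / 3 + 2) * r := h1
    _ = ((C : ℝ) / 3 + 2) * (1 / (r : ℝ)) * (r : ℝ) ^ 2 := by
        field_simp

end Pool.Agent.Results.MP_137890_nt.ExactOrderLimit
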